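import Pool.Agent.Helper8.UN.Stmts

set_option autoImplicit false

open Finset

namespace Pool.Agent.Helper8.UN

theorem wl3_large : ∃ n₀ : ℕ, ∀ n ≥ n₀, (27000 : ℝ) ≤ Real.log n ∧
    1000 * Real.log n ^ 2 ≤ (n : ℝ) := by
  refine ⟨⌈Real.exp 27000⌉₊, ?_⟩
  intro n hn
  have h1 : Real.exp 27000 ≤ n := by
    calc Real.exp 27000 ≤ (⌈Real.exp 27000⌉₊ : ℝ) := Nat.le_ceil _
      _ ≤ n := by exact_mod_cast hn
  have h2 : (0 : ℝ) < n := lt_of_lt_of_le (Real.exp_pos _) h1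
  have h3 : (27000 : ℝ) ≤ Real.log n := by
    rw [Real.le_log_iff_exp_le h2]
    exact h1
  refine ⟨h3, ?_⟩
  set L := Real.log n with hL
  have h4 : L / 3 ≤ Real.exp (L / 3) := by
    have := Real.add_one_le_exp (L / 3)
    linarith
  have h5 : (L / 3) ^ 3 ≤ Real.exp (L / 3) ^ 3 := pow_le_pow_left₀ (by linarith) h4 3
  have h6 : Real.exp (L / 3) ^ 3 = n := by
    rw [← Real.exp_nat_mul]
    have : ((3 : ℕ) : ℝ) * (L / 3) = L := by
      push_cast
      ring
    rw [this, hL, Real.exp_log h2]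
  rw [h6] at h5
  calc 1000 * L ^ 2 ≤ (L / 27) * L ^ 2 := by
        apply mul_le_mul_of_nonneg_right _ (by positivity)
        linarith
    _ = (L / 3) ^ 3 := by ring
    _ ≤ n := h5

theorem wl3_poly (l l1 l2 l3 : ℝ) (h0 : 0 < l) (h1 : l ≤ 11 / 10) (h2 : 99 / 100 * l ≤ l1)
    (h3 : l1 ≤ l) (h4 : 0 < l2) (h5 : l2 ≤ l) (h6 : 0 < l3) (h7 : l3 ≤ l) :
    21 / 100 ≤ 1 - l + l * l1 / 2 - l * l1 * l2 / 6 - l * l1 * l2 * l3 / 24 := by
  have h8 : 0 < l1 := by linarith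
  have a1 : 99 / 100 * l ^ 2 ≤ l * l1 := by nlinarith
  have a2 : l * l1 ≤ l ^ 2 := by nlinarith
  have a3 : l * l1 * l2 ≤ l ^ 3 := by
    calc l * l1 * l2 ≤ l ^ 2 * l := by
          apply mul_le_mul a2 h5 h4.le (by positivity)
      _ = l ^ 3 := by ring
  have a4 : l * l1 * l2 * l3 ≤ l ^ 4 := by
    calc l * l1 * l2 * l3 ≤ l ^ 3 * l := by
          apply mul_le_mul a3 h7 h6.le (by positivity)
      _ = l ^ 4 := by ring
  have a5 : 21 / 100 ≤ 1 - l + 99 / 100 * l ^ 2 / 2 - l ^ 3 / 6 - l ^ 4 / 24 := by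
    obtain ⟨t, ht⟩ : ∃ t : ℝ, t = 11 / 10 - l := ⟨_, rfl⟩
    have ht0 : 0 ≤ t := by linarith
    have ht1 : t ≤ 11 / 10 := by linarith
    have hl : l = 11 / 10 - t := by linarith
    subst hl
    nlinarith [mul_nonneg ht0 (sub_nonneg.2 ht1), mul_nonneg (pow_nonneg ht0 2) (sub_nonneg.2 ht1),
      mul_nonneg (pow_nonneg ht0 3) (sub_nonneg.2 ht1), pow_nonneg ht0 3, pow_nonneg ht0 2]
  linarith

theorem wl3_fac (I : ℕ) (L : ℝ) (hL : 27000 ≤ L) (hI : 4 * L ≤ I + 1) :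
    (11 / 10 : ℝ) ^ I / (I.factorial : ℝ) ≤ 1 / 4000 * Real.exp (-L) := by
  have h1 : (9 : ℝ) ^ I / (I.factorial : ℝ) ≤ Real.exp 9 :=
    Real.pow_div_factorial_le_exp 9 (by norm_num) I
  have h2 : (11 / 90 : ℝ) ≤ Real.exp (-2) := by
    have h3 : Real.exp 2 ≤ 8 := by
      have h4 : Real.exp 2 = Real.exp 1 ^ 2 := by
        rw [← Real.exp_nat_mul]
        norm_num
      rw [h4]
      have h5 := Real.exp_one_lt_d9
      have h6 := Real.exp_pos 1
      nlinarith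
    rw [Real.exp_neg, le_inv_comm₀ (by norm_num) (Real.exp_pos 2)]
    calc Real.exp 2 ≤ 8 := h3
      _ ≤ (11 / 90 : ℝ)⁻¹ := by norm_num
  have h4 : (11 / 10 : ℝ) ^ I / (I.factorial : ℝ) =
      (11 / 90 : ℝ) ^ I * ((9 : ℝ) ^ I / (I.factorial : ℝ)) := by
    rw [← mul_div_assoc, ← mul_pow]
    norm_num
  rw [h4]
  calc (11 / 90 : ℝ) ^ I * ((9 : ℝ) ^ I / (I.factorial : ℝ))
      ≤ Real.exp (-2) ^ I * Real.exp 9 := by
        apply mul_le_mul (pow_le_pow_left₀ (by norm_num) h2 I) h1 (by positivity) (by positivity)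
    _ = Real.exp (-2 * I + 9) := by
        rw [← Real.exp_nat_mul, Real.exp_add]
        congr 2
        ring
    _ ≤ Real.exp (-L - 9) := by
        rw [Real.exp_le_exp]
        linarith
    _ = Real.exp (-9) * Real.exp (-L) := by
        rw [← Real.exp_add]
        congr 1
        ring
    _ ≤ 1 / 4000 * Real.exp (-L) := by
        apply mul_le_mul_of_nonneg_right _ (Real.exp_pos _).le
        have h5 : (4000 : ℝ) ≤ Real.exp 9 := by
          have h6 : Real.exp 9 = Real.exp 1 ^ 9 := by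
            rw [← Real.exp_nat_mul]
            norm_num
          rw [h6]
          have h7 : (2.7 : ℝ) ≤ Real.exp 1 := by
            have := Real.exp_one_gt_d9
            linarith
          calc (4000 : ℝ) ≤ 2.7 ^ 9 := by norm_num
            _ ≤ Real.exp 1 ^ 9 := pow_le_pow_left₀ (by norm_num) h7 9
        rw [Real.exp_neg, one_div]
        exact inv_anti₀ (by norm_num) h5

theorem st_WL3 (h0 : ST_WL0) (h1 : ST_WL1) : ST_WL3 := by
  obtain ⟨n₁, H1⟩ := h1
  obtain ⟨n₂, H2⟩ := wl3_large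
  refine ⟨max n₁ n₂, ?_⟩
  intro n hn p hp m hm1 hm2 hlam
  obtain ⟨hL, hn0⟩ := H2 n (le_trans (le_max_right _ _) hn)
  have HW := H1 n (le_trans (le_max_left _ _) hn) p hp m
  obtain ⟨L, hLdef⟩ : ∃ L : ℝ, L = Real.log n := ⟨_, rfl⟩
  rw [← hLdef] at hL hn0 hm1 hm2 HW ⊢
  have hLpos : 0 < L := by linarith
  have hnpos : (0 : ℝ) < n := by nlinarith
  obtain ⟨q, hq⟩ : ∃ q : ℝ, q = (n : ℝ) / L := ⟨_, rfl⟩
  have hqL : q * L = n := by
    rw [hq]
    field_simp
  have hq1 : 1000 * L ≤ q := by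
    rw [hq, le_div_iff₀ hLpos]
    nlinarith
  rw [← hq] at hm1 hm2 HW
  -- monotonicity
  have HM : ∀ k : ℕ, k ≤ m → (m : ℝ) ≤ k + 6 * L → 0 < lam p k ∧ 0 < lam p (k + 1) ∧
      lam p k * Real.exp (998 / 1000 * (n / (m : ℝ) ^ 2)) ≤ lam p (k + 1) ∧
      lam p (k + 1) ≤ lam p k * Real.exp (1005 / 1000 * (n / (m : ℝ) ^ 2)) := by
    intro k hk1 hk2
    have hk1' : (k : ℝ) ≤ m := by exact_mod_cast hk1
    exact HW k hm1 hm2 (by linarith) hk2
  have HM1 : ∀ k : ℕ, k ≤ m → (m : ℝ) ≤ k + 6 * L → lam p k ≤ lam p (k + 1) := by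
    intro k hk1 hk2
    obtain ⟨a1, a2, a3, a4⟩ := HM k hk1 hk2
    have a5 : 1 ≤ Real.exp (998 / 1000 * (n / (m : ℝ) ^ 2)) := Real.one_le_exp (by positivity)
    nlinarith
  have HMM : ∀ a b : ℕ, a ≤ b → b ≤ m + 1 → (m : ℝ) ≤ a + 6 * L → lam p a ≤ lam p b := by
    intro a b hab
    induction b, hab using Nat.le_induction with
    | base => intro _ _; exact le_rfl
    | succ b hab ih =>
      intro hb ha
      have hab' : (a : ℝ) ≤ b := by exact_mod_cast hab
      exact (ih (by omega) ha).trans (HM1 b (by omega) (by linarith))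
  have hmbig : 680 * L ≤ m := by linarith
  -- values
  have HV : ∀ m' j : ℕ, m - 1 ≤ m' → m' ≤ m + 1 → (j : ℝ) ≤ 4 * L →
      j ≤ m' ∧ 0 < lam p (m' - j) ∧ lam p (m' - j) ≤ lam p m' ∧ lam p m' ≤ 11 / 10 ∧
        0 < p (m' - j) ∧ (m : ℝ) ≤ ((m' - j : ℕ) : ℝ) + 6 * L - 1 := by
    intro m' j hm'1 hm'2 hj
    have b1 : (m : ℝ) - 1 ≤ m' := by
      have : m ≤ m' + 1 := by omega
      have : (m : ℝ) ≤ m' + 1 := by exact_mod_cast this
      linarith
    have b1' : (m' : ℝ) ≤ m + 1 := by exact_mod_cast hm'2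
    have b2 : (j : ℝ) ≤ m' := by linarith
    have b3 : j ≤ m' := by exact_mod_cast b2
    have b4 : ((m' - j : ℕ) : ℝ) = m' - j := by rw [Nat.cast_sub b3]
    have b5 : (m : ℝ) ≤ ((m' - j : ℕ) : ℝ) + 6 * L - 1 := by rw [b4]; linarith
    have b6 : (m : ℝ) ≤ (m' : ℝ) + 6 * L := by linarith
    have b7 : lam p (m' - j) ≤ lam p m' := HMM _ _ (by omega) hm'2 (by linarith)
    have b8 : lam p m' ≤ lam p (m + 1) := HMM _ _ hm'2 le_rfl b6
    have b9 : 0 < lam p (m' - j) := by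
      by_cases hc : m' - j ≤ m
      · exact (HM (m' - j) hc (by linarith)).1
      · have : m' - j = m + 1 := by omega
        rw [this]
        exact (HM m le_rfl (by linarith)).2.1
    have b10 := hp (m' - j)
    rw [← hLdef, ← hq] at b10
    have b11 : (0 : ℝ) ≤ j := by positivity
    have b12 := b10 (by rw [b4]; linarith) (by rw [b4]; linarith)
    exact ⟨b3, b9, b7, by linarith, b12.2.1, b5⟩
  have HF : ∀ i m' : ℕ, (i : ℝ) ≤ 4 * L → m - 1 ≤ m' → m' ≤ m + 1 →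
      ff p i m' = (∏ j ∈ Finset.range i, lam p (m' - j)) / (i.factorial : ℝ) := by
    intro i m' hi hm'1 hm'2
    apply h0 p i m' (HV m' i hm'1 hm'2 hi).1
    intro j hj
    have hj' : (j : ℝ) ≤ i := by exact_mod_cast hj
    exact (HV m' j hm'1 hm'2 (by linarith)).2.2.2.2.1
  have P1 : ∀ i m' : ℕ, (i : ℝ) ≤ 4 * L → m - 1 ≤ m' → m' ≤ m + 1 →
      0 < ff p i m' ∧ ff p i m' ≤ (11 / 10) ^ i / (i.factorial : ℝ) := by
    intro i m' hi hm'1 hm'2
    rw [HF i m' hi hm'1 hm'2]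
    have hV : ∀ j ∈ Finset.range i, 0 < lam p (m' - j) ∧ lam p (m' - j) ≤ 11 / 10 := by
      intro j hj
      have hj1 : j ≤ i := (Finset.mem_range.1 hj).le
      have hj' : (j : ℝ) ≤ i := by exact_mod_cast hj1
      have := HV m' j hm'1 hm'2 (by linarith)
      exact ⟨this.2.1, this.2.2.1.trans this.2.2.2.1⟩
    constructor
    · apply div_pos _ (by positivity)
      exact Finset.prod_pos (fun j hj => (hV j hj).1)
    · apply div_le_div_of_nonneg_right _ (by positivity)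
      calc ∏ j ∈ Finset.range i, lam p (m' - j) ≤ ∏ _j ∈ Finset.range i, (11 / 10 : ℝ) :=
            Finset.prod_le_prod (fun j hj => (hV j hj).1.le) (fun j hj => (hV j hj).2)
        _ = (11 / 10) ^ i := by
            rw [Finset.prod_const, Finset.card_range]
  have hmpos : (0 : ℝ) < m := by nlinarith
  have hnm : (n : ℝ) / (m : ℝ) ^ 2 ≤ 1 / 400 := by
    rw [div_le_iff₀ (by positivity)]
    have c1 : (m : ℝ) ^ 2 ≥ (68 / 100 * q) ^ 2 := by
      apply pow_le_pow_left₀ (by nlinarith) hm1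
    have c2 : (q : ℝ) ^ 2 ≥ 1000 * (n : ℝ) := by
      nlinarith
    nlinarith
  refine ⟨P1, ?_, ?_⟩
  · intro m' hm'1 hm'2
    have d1 := HF 1 m' (by push_cast; linarith) hm'1 hm'2
    have d2 := HF 2 m' (by push_cast; linarith) hm'1 hm'2
    have d3 := HF 3 m' (by push_cast; linarith) hm'1 hm'2
    have d4 := HF 4 m' (by push_cast; linarith) hm'1 hm'2
    simp only [Finset.prod_range_succ, Finset.prod_range_zero, one_mul, Nat.sub_zero,
      Nat.factorial] at d1 d2 d3 d4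
    obtain ⟨e0, e1, e2, e3, e4, e5⟩ := HV m' 0 hm'1 hm'2 (by push_cast; linarith)
    obtain ⟨f0, f1, f2, f3, f4, f5⟩ := HV m' 1 hm'1 hm'2 (by push_cast; linarith)
    obtain ⟨g0, g1, g2, g3, g4, g5⟩ := HV m' 2 hm'1 hm'2 (by push_cast; linarith)
    obtain ⟨k0, k1, k2, k3, k4, k5⟩ := HV m' 3 hm'1 hm'2 (by push_cast; linarith)
    rw [Nat.sub_zero] at e1
    have l1 : 99 / 100 * lam p m' ≤ lam p (m' - 1) := by
      have q1 := (HM (m' - 1) (by omega) (by linarith)).2.2.2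
      rw [Nat.sub_add_cancel f0] at q1
      obtain ⟨x, hx⟩ : ∃ x : ℝ, x = 1005 / 1000 * (n / (m : ℝ) ^ 2) := ⟨_, rfl⟩
      rw [← hx] at q1
      have hx1 : x ≤ 1 / 100 := by
        rw [hx]
        linarith
      have q2 : 1 - x ≤ Real.exp (-x) := by
        have := Real.add_one_le_exp (-x)
        linarith
      have q3 : Real.exp (-x) * Real.exp x = 1 := by
        rw [← Real.exp_add]
        simp
      calc 99 / 100 * lam p m' ≤ Real.exp (-x) * lam p m' := by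
            apply mul_le_mul_of_nonneg_right _ e1.le
            linarith
        _ ≤ Real.exp (-x) * (lam p (m' - 1) * Real.exp x) :=
            mul_le_mul_of_nonneg_left q1 (Real.exp_pos _).le
        _ = lam p (m' - 1) * (Real.exp (-x) * Real.exp x) := by ring
        _ = lam p (m' - 1) := by rw [q3, mul_one]
    have := wl3_poly (lam p m') (lam p (m' - 1)) (lam p (m' - 2)) (lam p (m' - 3)) e1 e3 l1 f2
      g1 g2 k1 k2
    rw [d1, d2, d3, d4]
    norm_num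
    norm_num at this
    linarith
  · intro m' hm'1 hm'2
    have r1 : ((⌊4 * L⌋₊ : ℕ) : ℝ) ≤ 4 * L := Nat.floor_le (by linarith)
    have r2 : 4 * L ≤ (⌊4 * L⌋₊ : ℝ) + 1 := (Nat.lt_floor_add_one _).le
    refine (P1 _ m' r1 hm'1 hm'2).2.trans ?_
    refine (wl3_fac _ L hL r2).trans ?_
    have r3 : Real.exp (-L) = 1 / n := by
      rw [Real.exp_neg, hLdef, Real.exp_log hnpos, one_div]
    rw [r3]
    have r4 : (1 : ℝ) / n ≤ n / (m : ℝ) ^ 2 := by
      rw [div_le_div_iff₀ hnpos (by positivity)]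
      have r5 : (m : ℝ) ^ 2 ≤ (120 / 100 * q) ^ 2 := pow_le_pow_left₀ hmpos.le hm2 2
      have r6 : (q : ℝ) * 27000 ≤ n := by
        rw [← hqL]
        apply mul_le_mul_of_nonneg_left hL
        nlinarith
      have r7 : 0 ≤ q := by nlinarith
      nlinarith
    linarith

end Pool.Agent.Helper8.UN
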